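import Pool.Agent.H83.Edw4

set_option autoImplicit false

namespace Pool.Agent.Results.MP_d0a72d_lc.NotClopen

open Pool.Agent.H83.Edw

/-- The subring `ℤ[1/p : p ∈ W]` of `ℚ`; a set `W` of primes is a point of `2^P`. -/
def RW (W : Nat.Primes → Bool) : Subring ℚ :=
  Subring.closure {x | ∃ p : Nat.Primes, W p = true ∧ x = ((p.1 : ℕ) : ℚ)⁻¹}

/-- `A(f)`: the subrings in which `f` has a zero. -/
def A {n : ℕ} (f : MvPolynomial (Fin n) ℤ) : Set (Nat.Primes → Bool) :=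
  {W | ∃ a : Fin n → ℚ, (∀ i, a i ∈ RW W) ∧ MvPolynomial.aeval a f = 0}

/-- The basic open set `U_{F,G}`. -/
def U (F G : Finset Nat.Primes) : Set (Nat.Primes → Bool) :=
  {W | (∀ p ∈ F, W p = true) ∧ ∀ p ∈ G, W p = false}

theorem v_le {W : Nat.Primes → Bool} {x : ℚ} (hx : x ∈ RW W) {p : Nat.Primes} (hp : W p = false) :
    V p.1 x ≤ 1 := by
  have : RW W ≤ (V p.1).integer := by
    refine Subring.closure_le.2 ?_
    rintro _ ⟨q, hq, rfl⟩
    have hne : p ≠ q := by rintro rfl; simp [hp] at hq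
    have h1 : V p.1 ((q.1 : ℕ) : ℚ) = 1 := by
      have := (v_int_eq p.1 (n := (q.1 : ℕ))).2 (by
        rw [Int.natCast_dvd_natCast, Nat.prime_dvd_prime_iff_eq p.2 q.2]
        exact fun h => hne (Subtype.ext h))
      simpa using this
    change V p.1 _ ≤ 1
    rw [map_inv₀, h1, inv_one]
  exact this hx

theorem mem_RW {W : Nat.Primes → Bool} {x : ℚ}
    (hx : ∀ p : Nat.Primes, W p = false → V p.1 x ≤ 1) : x ∈ RW W := by
  have h1 : ∀ n : ℕ, (∀ p : Nat.Primes, p.1 ∣ n → W p = true) → ((n : ℚ))⁻¹ ∈ RW W := by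
    intro n
    induction n using Nat.recOnMul with
    | zero => intro _; simp
    | one => intro _; simp
    | prime p hp => intro h; exact Subring.subset_closure ⟨⟨p, hp⟩, h _ dvd_rfl, rfl⟩
    | mul a b ha hb =>
      intro h
      rw [Nat.cast_mul, mul_inv]
      exact mul_mem (ha fun p hp => h p (hp.mul_right _)) (hb fun p hp => h p (hp.mul_left _))
  rw [← Rat.num_div_den x, div_eq_mul_inv]
  refine mul_mem (intCast_mem _ _) (h1 _ fun p hp => ?_)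
  by_contra hc
  exact Rat.padicValuation_le_one_iff.1 (hx p (by simpa using hc)) hp

theorem isOpen_U (G : Finset Nat.Primes) : IsOpen (U ∅ G) := by
  have : U ∅ G = ⋂ p ∈ G, (fun W : Nat.Primes → Bool => W p) ⁻¹' {false} := by
    ext W; simp [U]
  rw [this]
  exact isOpen_biInter_finset fun p _ => (isOpen_discrete _).preimage (continuous_apply p)

open MvPolynomial in
theorem result : ∃ n : ℕ, 1 ≤ n ∧ ∃ f : MvPolynomial (Fin n) ℤ,
    ¬ ∃ T : Finset (Finset Nat.Primes × Finset Nat.Primes),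
      (∀ z ∈ T, Disjoint z.1 z.2) ∧ interior (A f)ᶜ = ⋃ z ∈ T, U z.1 z.2 := by
  classical
  obtain ⟨S, h1, h2⟩ := core
  refine ⟨4, by norm_num, (X 0 ^ 2 + X 1 ^ 2 + 6 * X 0 ^ 2 * X 1 ^ 2 - 1) ^ 2 +
    (X 2 ^ 2 + 6 - X 0 * X 1 * X 3) ^ 2, ?_⟩
  set f : MvPolynomial (Fin 4) ℤ := (X 0 ^ 2 + X 1 ^ 2 + 6 * X 0 ^ 2 * X 1 ^ 2 - 1) ^ 2 +
    (X 2 ^ 2 + 6 - X 0 * X 1 * X 3) ^ 2 with hf
  have hev : ∀ a : Fin 4 → ℚ, aeval a f = (a 0 ^ 2 + a 1 ^ 2 + 6 * a 0 ^ 2 * a 1 ^ 2 - 1) ^ 2 +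
      (a 2 ^ 2 + 6 - a 0 * a 1 * a 3) ^ 2 := by
    intro a
    simp [hf, map_ofNat]
  rintro ⟨T, hT, hC⟩
  obtain ⟨q, hq, G, hG, hno⟩ := h2 (T.biUnion fun z => z.2)
  have hsub : U ∅ G ⊆ (A f)ᶜ := by
    rintro W ⟨-, hW⟩ ⟨a, ha, h0⟩
    rw [hev] at h0
    have e1 : a 0 ^ 2 + a 1 ^ 2 + 6 * a 0 ^ 2 * a 1 ^ 2 - 1 = 0 := by
      nlinarith [sq_nonneg (a 0 ^ 2 + a 1 ^ 2 + 6 * a 0 ^ 2 * a 1 ^ 2 - 1),
        sq_nonneg (a 2 ^ 2 + 6 - a 0 * a 1 * a 3)]
    have e2 : a 2 ^ 2 + 6 - a 0 * a 1 * a 3 = 0 := by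
      rw [e1] at h0
      simpa using h0
    exact hno (a 0) (a 1) (a 2) (a 3) (fun p hp => ⟨v_le (ha 0) (hW p hp), v_le (ha 1) (hW p hp),
      v_le (ha 2) (hW p hp), v_le (ha 3) (hW p hp)⟩) (by linarith) (by linarith)
  have hmem : (fun p => decide (p ∉ G)) ∈ interior (A f)ᶜ :=
    interior_maximal hsub (isOpen_U G) ⟨by simp, fun p hp => by simpa using hp⟩
  rw [hC] at hmem
  simp only [Set.mem_iUnion] at hmem
  obtain ⟨z, hz, -, hz2⟩ := hmem
  obtain ⟨x, y, t, c, hv, e1, e2⟩ := h1 z.2 (fun p hp => by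
    have hpG : p ∈ G := by simpa using hz2 p hp
    rcases hG hpG with rfl | h
    · exact absurd (Finset.mem_biUnion.2 ⟨z, hz, hp⟩) hq
    · exact h)
  have hmem2 : (fun p => decide (p ∉ z.2)) ∈ interior (A f)ᶜ := by
    rw [hC]
    simp only [Set.mem_iUnion]
    exact ⟨z, hz, fun p hp => by simpa using Finset.disjoint_left.1 (hT z hz) hp,
      fun p hp => by simpa using hp⟩
  refine interior_subset hmem2 ⟨![x, y, t, c], fun i => mem_RW fun p hp => ?_, ?_⟩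
  · have := hv p (by simpa using hp)
    fin_cases i
    · exact this.1
    · exact this.2.1
    · exact this.2.2.1
    · exact this.2.2.2
  · rw [hev]
    simp [e1, e2]

end Pool.Agent.Results.MP_d0a72d_lc.NotClopen
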